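import Mathlib

set_option autoImplicit false

/-!
# A real analytic nonexpansive map whose fixed point set is a nonlinear cone

On `ℝ ^ 3` with the norm `max (24 |x|, 24 |y|, |z|)` the map
`(x, y, z) ↦ (x, y, z - (z r² - x³) / (3 (1 + r²)))`, `r² = x² + y² + z²`, is nonexpansive, and its
fixed point set is the cone `z r² = x³`.
-/

namespace Pool.Agent.X5.ConeFix

open Set Filter Topology

/-- The third coordinate of the map. -/
noncomputable def h (x y z : ℝ) : ℝ :=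
  z - (z * (x ^ 2 + y ^ 2 + z ^ 2) - x ^ 3) / (3 * (1 + (x ^ 2 + y ^ 2 + z ^ 2)))

/-- The map. -/
noncomputable def f (p : Fin 3 → ℝ) : Fin 3 → ℝ := ![p 0, p 1, h (p 0) (p 1) (p 2)]

/-- The cone `z r² = x³`. -/
def M : Set (Fin 3 → ℝ) := {p | p 2 * (p 0 ^ 2 + p 1 ^ 2 + p 2 ^ 2) = p 0 ^ 3}

theorem fix_f : {p | f p = p} = M := by
  ext p
  simp only [mem_ofPred_eq, M]
  have hpos : 0 < 1 + (p 0 ^ 2 + p 1 ^ 2 + p 2 ^ 2) := by positivity
  constructor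
  · intro hp
    have h2 : h (p 0) (p 1) (p 2) = p 2 := by
      have := congrFun hp 2
      simpa [f] using this
    unfold h at h2
    have h3 : (p 2 * (p 0 ^ 2 + p 1 ^ 2 + p 2 ^ 2) - p 0 ^ 3) /
        (3 * (1 + (p 0 ^ 2 + p 1 ^ 2 + p 2 ^ 2))) = 0 := by linarith
    rw [div_eq_zero_iff] at h3
    rcases h3 with h3 | h3
    · linarith
    · linarith
  · intro hp
    funext i
    fin_cases i
    · rfl
    · rfl
    · show h (p 0) (p 1) (p 2) = p 2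
      unfold h
      rw [hp]
      simp

theorem M_smul {p : Fin 3 → ℝ} (hp : p ∈ M) (t : ℝ) : t • p ∈ M := by
  simp only [M, mem_ofPred_eq, Pi.smul_apply, smul_eq_mul] at hp ⊢
  have : t * p 2 * ((t * p 0) ^ 2 + (t * p 1) ^ 2 + (t * p 2) ^ 2) =
      t ^ 3 * (p 2 * (p 0 ^ 2 + p 1 ^ 2 + p 2 ^ 2)) := by ring
  rw [this, hp]
  ring

theorem M_closed : IsClosed M := by
  unfold M
  exact isClosed_eq (by fun_prop) (by fun_prop)

/-- `M` is not closed under addition. -/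
theorem M_not_add : ∃ a b : Fin 3 → ℝ, a ∈ M ∧ b ∈ M ∧ a + b ∉ M := by
  have h3 : √(3 : ℝ) ^ 2 = 3 := Real.sq_sqrt (by norm_num)
  refine ⟨![2, √3, 1], ![2, -√3, 1], ?_, ?_, ?_⟩
  · simp only [M, mem_ofPred_eq]
    simp
    norm_num
  · simp only [M, mem_ofPred_eq]
    simp
    norm_num
  · simp only [M, mem_ofPred_eq]
    simp
    norm_num

theorem analytic_f : AnalyticOnNhd ℝ f univ := by
  intro p _
  have hp : ∀ i : Fin 3, AnalyticAt ℝ (fun q : Fin 3 → ℝ => q i) p := fun i =>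
    (ContinuousLinearMap.proj (R := ℝ) (φ := fun _ : Fin 3 => ℝ) i).analyticAt p
  rw [analyticAt_pi_iff]
  intro i
  fin_cases i
  · exact hp 0
  · exact hp 1
  · show AnalyticAt ℝ (fun q : Fin 3 → ℝ => h (q 0) (q 1) (q 2)) p
    unfold h
    have hne : 3 * (1 + (p 0 ^ 2 + p 1 ^ 2 + p 2 ^ 2)) ≠ 0 := by positivity
    have hR : AnalyticAt ℝ (fun q : Fin 3 → ℝ => q 0 ^ 2 + q 1 ^ 2 + q 2 ^ 2) p :=
      (((hp 0).pow 2).add ((hp 1).pow 2)).add ((hp 2).pow 2)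
    exact (hp 2).sub ((((hp 2).mul hR).sub ((hp 0).pow 3)).div
      (analyticAt_const.mul (analyticAt_const.add hR)) hne)

theorem comb {z x y K nx ny nz S T : ℝ} (hz : |z| ≤ K) (hx : 24 * |x| ≤ K) (hy : 24 * |y| ≤ K)
    (uz : nz ≤ T) (lz : 1 / 4 * S ≤ nz) (ux : |nx| ≤ 5 * S) (uy : |ny| ≤ S) (hS : 0 ≤ S) :
    |z * (T - nz) - nx * x - ny * y| ≤ K * T := by
  have hK : 0 ≤ K := (abs_nonneg z).trans hz
  have f1 : |z * (T - nz)| ≤ K * (T - nz) := by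
    rw [abs_mul, abs_of_nonneg (sub_nonneg.2 uz)]
    exact mul_le_mul_of_nonneg_right hz (sub_nonneg.2 uz)
  have f2 : |nx * x| ≤ 5 * S * (K / 24) := by
    rw [abs_mul]
    exact mul_le_mul ux (by linarith) (abs_nonneg _) (by positivity)
  have f3 : |ny * y| ≤ S * (K / 24) := by
    rw [abs_mul]
    exact mul_le_mul uy (by linarith) (abs_nonneg _) hS
  have f4 : K * (1 / 4 * S) ≤ K * nz := mul_le_mul_of_nonneg_left lz hK
  have g1 := abs_sub (z * (T - nz) - nx * x) (ny * y)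
  have g2 := abs_sub (z * (T - nz)) (nx * x)
  have e : K * (T - nz) + 5 * S * (K / 24) + S * (K / 24) = K * T - K * nz + K * (1 / 4 * S) := by
    ring
  linarith

theorem num_z {X Y Z R : ℝ} (hR : R = X ^ 2 + Y ^ 2 + Z ^ 2) :
    1 / 4 * (R * (1 + R)) ≤ R + 2 * Z ^ 2 + R ^ 2 + 2 * X ^ 3 * Z ∧
      R + 2 * Z ^ 2 + R ^ 2 + 2 * X ^ 3 * Z ≤ 3 * (1 + R) ^ 2 := by
  have hR0 : 0 ≤ R := by rw [hR]; positivity
  have hZR : Z ^ 2 ≤ R := by rw [hR]; linarith [sq_nonneg Y, sq_nonneg X]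
  have hXZ : X ^ 2 + Z ^ 2 ≤ R := by rw [hR]; linarith [sq_nonneg Y]
  have b1 : (X ^ 2 + Z ^ 2) ^ 2 ≤ R ^ 2 := by
    have : 0 ≤ X ^ 2 + Z ^ 2 := by positivity
    gcongr
  have b2 : 0 ≤ 3 / 4 * (X ^ 2 + Z ^ 2) ^ 2 + 2 * X ^ 3 * Z := by
    have : 3 / 4 * (X ^ 2 + Z ^ 2) ^ 2 + 2 * X ^ 3 * Z =
      3 / 4 * (X ^ 2 + (4 / 3) * X * Z) ^ 2 + 1 / 6 * (X * Z) ^ 2 + 3 / 4 * (Z ^ 2) ^ 2 := by
      ring
    rw [this]; positivity
  have b3 : 2 * X ^ 3 * Z ≤ (X ^ 2 + Z ^ 2) ^ 2 := by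
    have e : (X ^ 2 + Z ^ 2) ^ 2 - 2 * X ^ 3 * Z =
      (X * (X - Z)) ^ 2 + (X * Z) ^ 2 + (Z ^ 2) ^ 2 := by ring
    have : 0 ≤ (X * (X - Z)) ^ 2 + (X * Z) ^ 2 + (Z ^ 2) ^ 2 := by positivity
    linarith
  have hZ0 := sq_nonneg Z
  have e1 : 1 / 4 * (R * (1 + R)) = 1 / 4 * R + 1 / 4 * R ^ 2 := by ring
  have e2 : 3 * (1 + R) ^ 2 = 3 + 6 * R + 3 * R ^ 2 := by ring
  have hR2 : 0 ≤ R ^ 2 := sq_nonneg R
  constructor
  · rw [e1]; linarith
  · rw [e2]; linarith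

theorem num_x {X Y Z R : ℝ} (hR : R = X ^ 2 + Y ^ 2 + Z ^ 2) :
    |2 * X * Z - 3 * X ^ 2 - 3 * X ^ 2 * R + 2 * X ^ 4| ≤ 5 * (R * (1 + R)) := by
  have hR0 : 0 ≤ R := by rw [hR]; positivity
  have hXR : X ^ 2 ≤ R := by rw [hR]; linarith [sq_nonneg Y, sq_nonneg Z]
  have hXZ : X ^ 2 + Z ^ 2 ≤ R := by rw [hR]; linarith [sq_nonneg Y]
  have hX0 := sq_nonneg X
  have e1 : X ^ 2 * X ^ 2 ≤ R * R := mul_le_mul hXR hXR hX0 hR0
  have e2 : X ^ 2 * R ≤ R * R := mul_le_mul_of_nonneg_right hXR hR0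
  have e4 : 0 ≤ X ^ 2 * R := mul_nonneg hX0 hR0
  have e3 : X ^ 4 = X ^ 2 * X ^ 2 := by ring
  have e5 : 0 ≤ X ^ 2 * X ^ 2 := mul_nonneg hX0 hX0
  have e6 : 2 * X * Z ≤ X ^ 2 + Z ^ 2 := two_mul_le_add_sq X Z
  have e7 : -(X ^ 2 + Z ^ 2) ≤ 2 * X * Z := by
    have := sq_nonneg (X + Z)
    have e : (X + Z) ^ 2 = X ^ 2 + 2 * X * Z + Z ^ 2 := by ring
    linarith
  have e9 : 5 * (R * (1 + R)) = 5 * R + 5 * (R * R) := by ring
  have e10 : 3 * X ^ 2 * R = 3 * (X ^ 2 * R) := by ring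
  rw [e9, e3, e10, abs_le]
  constructor <;> linarith

theorem num_y {X Y Z R : ℝ} (hR : R = X ^ 2 + Y ^ 2 + Z ^ 2) :
    |2 * Y * Z + 2 * X ^ 3 * Y| ≤ R * (1 + R) := by
  have hR0 : 0 ≤ R := by rw [hR]; positivity
  have hXR : X ^ 2 ≤ R := by rw [hR]; linarith [sq_nonneg Y, sq_nonneg Z]
  have hXY : X ^ 2 + Y ^ 2 ≤ R := by rw [hR]; linarith [sq_nonneg Z]
  have hYZ : Y ^ 2 + Z ^ 2 ≤ R := by rw [hR]; linarith [sq_nonneg X]
  have hX0 := sq_nonneg X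
  have e1 : (X ^ 2 + Y ^ 2) * X ^ 2 ≤ R * R := mul_le_mul hXY hXR hX0 hR0
  have e2 : 2 * X ^ 3 * Y ≤ (X ^ 2 + Y ^ 2) * X ^ 2 := by
    have := sq_nonneg (X * (X - Y))
    have e : (X * (X - Y)) ^ 2 = (X ^ 2 + Y ^ 2) * X ^ 2 - 2 * X ^ 3 * Y := by ring
    linarith
  have e3 : -((X ^ 2 + Y ^ 2) * X ^ 2) ≤ 2 * X ^ 3 * Y := by
    have := sq_nonneg (X * (X + Y))
    have e : (X * (X + Y)) ^ 2 = (X ^ 2 + Y ^ 2) * X ^ 2 + 2 * X ^ 3 * Y := by ring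
    linarith
  have e6 : 2 * Y * Z ≤ Y ^ 2 + Z ^ 2 := two_mul_le_add_sq Y Z
  have e7 : -(Y ^ 2 + Z ^ 2) ≤ 2 * Y * Z := by
    have := sq_nonneg (Y + Z)
    have e : (Y + Z) ^ 2 = Y ^ 2 + 2 * Y * Z + Z ^ 2 := by ring
    linarith
  have e9 : R * (1 + R) = R + R * R := by ring
  rw [e9, abs_le]
  constructor <;> linarith

/-- The bound for the derivative of `h` in a direction. -/
theorem bound {X Y Z x y z K : ℝ} (hx : 24 * |x| ≤ K) (hy : 24 * |y| ≤ K) (hz : |z| ≤ K) :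
    |z * (3 * (1 + (X ^ 2 + Y ^ 2 + Z ^ 2)) ^ 2 - ((X ^ 2 + Y ^ 2 + Z ^ 2) + 2 * Z ^ 2 +
        (X ^ 2 + Y ^ 2 + Z ^ 2) ^ 2 + 2 * X ^ 3 * Z)) -
      (2 * X * Z - 3 * X ^ 2 - 3 * X ^ 2 * (X ^ 2 + Y ^ 2 + Z ^ 2) + 2 * X ^ 4) * x -
      (2 * Y * Z + 2 * X ^ 3 * Y) * y| ≤ K * (3 * (1 + (X ^ 2 + Y ^ 2 + Z ^ 2)) ^ 2) :=
  comb hz hx hy (num_z rfl).2 (num_z rfl).1 (num_x rfl) (num_y rfl) (by positivity)

/-- The mean value inequality for `h`. -/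
theorem h_lip {x y z x' y' z' K : ℝ} (hx : 24 * |x' - x| ≤ K) (hy : 24 * |y' - y| ≤ K)
    (hz : |z' - z| ≤ K) : |h x' y' z' - h x y z| ≤ K := by
  obtain ⟨a, ha⟩ : ∃ a, a = x' - x := ⟨_, rfl⟩
  obtain ⟨b, hb⟩ : ∃ b, b = y' - y := ⟨_, rfl⟩
  obtain ⟨c, hc⟩ : ∃ c, c = z' - z := ⟨_, rfl⟩
  have hx' : x' = x + a := by rw [ha]; ring
  have hy' : y' = y + b := by rw [hb]; ring
  have hz' : z' = z + c := by rw [hc]; ring
  subst hx' hy' hz'
  rw [← ha] at hx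
  rw [← hb] at hy
  rw [← hc] at hz
  let g : ℝ → ℝ := fun t => h (x + t * a) (y + t * b) (z + t * c)
  let D : ℝ → ℝ → ℝ → ℝ := fun X Y Z =>
    (c * (3 * (1 + (X ^ 2 + Y ^ 2 + Z ^ 2)) ^ 2 - ((X ^ 2 + Y ^ 2 + Z ^ 2) + 2 * Z ^ 2 +
        (X ^ 2 + Y ^ 2 + Z ^ 2) ^ 2 + 2 * X ^ 3 * Z)) -
      (2 * X * Z - 3 * X ^ 2 - 3 * X ^ 2 * (X ^ 2 + Y ^ 2 + Z ^ 2) + 2 * X ^ 4) * a -
      (2 * Y * Z + 2 * X ^ 3 * Y) * b) / (3 * (1 + (X ^ 2 + Y ^ 2 + Z ^ 2)) ^ 2)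
  have hg : ∀ t : ℝ, HasDerivAt g (D (x + t * a) (y + t * b) (z + t * c)) t := by
    intro t
    obtain ⟨X, hX⟩ : ∃ X, X = x + t * a := ⟨_, rfl⟩
    obtain ⟨Y, hY⟩ : ∃ Y, Y = y + t * b := ⟨_, rfl⟩
    obtain ⟨Z, hZ⟩ : ∃ Z, Z = z + t * c := ⟨_, rfl⟩
    have dX : HasDerivAt (fun t : ℝ => x + t * a) a t := by
      simpa using ((hasDerivAt_id t).mul_const a).const_add x
    have dY : HasDerivAt (fun t : ℝ => y + t * b) b t := by
      simpa using ((hasDerivAt_id t).mul_const b).const_add y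
    have dZ : HasDerivAt (fun t : ℝ => z + t * c) c t := by
      simpa using ((hasDerivAt_id t).mul_const c).const_add z
    have dR := ((dX.pow 2).add (dY.pow 2)).add (dZ.pow 2)
    have hne : 3 * (1 + ((x + t * a) ^ 2 + (y + t * b) ^ 2 + (z + t * c) ^ 2)) ≠ 0 := by positivity
    have dd := dZ.sub (((dZ.mul dR).sub (dX.pow 3)).div ((dR.const_add 1).const_mul 3) hne)
    refine dd.congr_deriv ?_
    simp only [D, Pi.add_apply, Pi.pow_apply, Pi.mul_apply, Pi.sub_apply]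
    rw [← hX, ← hY, ← hZ]
    have hne2 : 1 + (X ^ 2 + Y ^ 2 + Z ^ 2) ≠ 0 := by positivity
    field_simp
    ring
  have hb : ∀ t ∈ Ico (0 : ℝ) 1, ‖D (x + t * a) (y + t * b) (z + t * c)‖ ≤ K := by
    intro t _
    have hpos : 0 < 3 * (1 + ((x + t * a) ^ 2 + (y + t * b) ^ 2 + (z + t * c) ^ 2)) ^ 2 := by
      positivity
    simp only [D]
    rw [Real.norm_eq_abs, abs_div, abs_of_pos hpos, div_le_iff₀ hpos]
    exact bound hx hy hz
  have := norm_image_sub_le_of_norm_deriv_le_segment_01'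
    (fun t _ => (hg t).hasDerivWithinAt) hb
  simpa [g, Real.norm_eq_abs] using this

/-! ### Cones -/

/-- The derivative at `0` of a curve in a closed cone is in the cone. -/
theorem deriv_mem_cone {E : Type*} [NormedAddCommGroup E] [NormedSpace ℝ E] {C : Set E}
    (hC : IsClosed C) (hs : ∀ c ∈ C, ∀ t : ℝ, t • c ∈ C) {γ : ℝ → E} {v : E}
    (hγ : HasDerivAt γ v 0) (h0 : γ 0 = 0) (hmem : ∀ᶠ t in 𝓝 (0 : ℝ), γ t ∈ C) : v ∈ C := by
  have h1 := hγ.tendsto_slope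
  refine hC.mem_of_tendsto h1 ?_
  filter_upwards [mem_nhdsWithin_of_mem_nhds hmem] with t ht
  rw [slope_def_module, h0, sub_zero, sub_zero]
  exact hs _ ht _

/-- The three functionals of the norm. -/
noncomputable def φ : Fin 3 → ((Fin 3 → ℝ) →ₗ[ℝ] ℝ) :=
  ![(24 : ℝ) • LinearMap.proj 0, (24 : ℝ) • LinearMap.proj 1, LinearMap.proj 2]

/-- The norm `max (24 |x|, 24 |y|, |z|)`. -/
noncomputable def N : Seminorm ℝ (Fin 3 → ℝ) :=
  (normSeminorm ℝ ℝ).comp (φ 0) ⊔ ((normSeminorm ℝ ℝ).comp (φ 1) ⊔ (normSeminorm ℝ ℝ).comp (φ 2))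

theorem N_apply (x : Fin 3 → ℝ) : N x = max |24 * x 0| (max |24 * x 1| |x 2|) := by
  simp only [N, Seminorm.sup_apply, Seminorm.comp_apply, coe_normSeminorm, φ, Real.norm_eq_abs]
  simp

theorem N_definite (x : Fin 3 → ℝ) (h : N x = 0) : x = 0 := by
  rw [N_apply] at h
  have h0 : |24 * x 0| ≤ 0 := h ▸ le_max_left _ _
  have h1 : |24 * x 1| ≤ 0 := h ▸ (le_max_left _ _).trans (le_max_right _ _)
  have h2 : |x 2| ≤ 0 := h ▸ (le_max_right _ _).trans (le_max_right _ _)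
  rw [abs_nonpos_iff] at h0 h1 h2
  funext i
  fin_cases i
  · show x 0 = 0
    linarith
  · show x 1 = 0
    linarith
  · exact h2

theorem nonexpansive (x y : Fin 3 → ℝ) : N (f x - f y) ≤ N (x - y) := by
  have h0 : 24 * |x 0 - y 0| ≤ N (x - y) := by
    rw [N_apply]
    refine le_trans ?_ (le_max_left _ _)
    rw [abs_mul]
    simp
  have h1 : 24 * |x 1 - y 1| ≤ N (x - y) := by
    rw [N_apply]
    refine le_trans ?_ ((le_max_left _ _).trans (le_max_right _ _))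
    rw [abs_mul]
    simp
  have h2 : |x 2 - y 2| ≤ N (x - y) := by
    rw [N_apply]
    refine le_trans ?_ ((le_max_right _ _).trans (le_max_right _ _))
    simp
  have h3 := h_lip h0 h1 h2
  rw [N_apply (f x - f y)]
  refine max_le ?_ (max_le ?_ ?_)
  · show |24 * (x 0 - y 0)| ≤ _
    rw [abs_mul, abs_of_pos (by norm_num : (0 : ℝ) < 24)]
    exact h0
  · show |24 * (x 1 - y 1)| ≤ _
    rw [abs_mul, abs_of_pos (by norm_num : (0 : ℝ) < 24)]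
    exact h1
  · exact h3

theorem zero_mem_M : (0 : Fin 3 → ℝ) ∈ M := by
  simp [M]

/-- A closed cone which is near its vertex the inverse image of a linear subspace `L` under a local
diffeomorphism is closed under addition. -/
theorem add_mem_of_chart {E : Type*} [NormedAddCommGroup E] [NormedSpace ℝ E] {C : Set E}
    (hC : IsClosed C) (hs : ∀ c ∈ C, ∀ t : ℝ, t • c ∈ C) (h0 : (0 : E) ∈ C)
    (ψ : OpenPartialHomeomorph E E) (hp : (0 : E) ∈ ψ.source)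
    (h1 : ContDiffOn ℝ 1 ψ ψ.source) (h2 : ContDiffOn ℝ 1 ψ.symm ψ.target)
    (L : Submodule ℝ E) (hL : IsClosed (L : Set E))
    (h3 : ψ '' (ψ.source ∩ C) = ψ.target ∩ L) (a b : E) (ha : a ∈ C) (hb : b ∈ C) :
    a + b ∈ C := by
  have d1 : DifferentiableAt ℝ ψ 0 :=
    (h1.contDiffAt (ψ.open_source.mem_nhds hp)).differentiableAt (by norm_num)
  have hq : ψ 0 ∈ ψ.target := ψ.map_source hp
  have d2 : DifferentiableAt ℝ ψ.symm (ψ 0) :=
    (h2.contDiffAt (ψ.open_target.mem_nhds hq)).differentiableAt (by norm_num)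
  have hqL : ψ 0 ∈ (L : Set E) := by
    have : ψ 0 ∈ ψ.target ∩ L := h3 ▸ mem_image_of_mem _ ⟨hp, h0⟩
    exact this.2
  have hline : ∀ v : E, HasDerivAt (fun t : ℝ => t • v) v 0 := fun v => by
    simpa using (hasDerivAt_id (0 : ℝ)).smul_const v
  -- the derivative maps `C` to `L`
  have key1 : ∀ c ∈ C, fderiv ℝ ψ 0 c ∈ (L : Set E) := by
    intro c hc
    have g1 : HasDerivAt (fun t : ℝ => ψ (t • c)) (fderiv ℝ ψ 0 c) 0 := by
      have h := (hline c)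
      have hd : HasFDerivAt ψ (fderiv ℝ ψ 0) ((fun t : ℝ => t • c) 0) := by
        simpa using d1.hasFDerivAt
      exact hd.comp_hasDerivAt (0 : ℝ) h
    refine deriv_mem_cone hL (fun c hc t => L.smul_mem t hc) (γ := fun t : ℝ => ψ (t • c) - ψ 0)
      (g1.sub_const (ψ 0)) (by simp) ?_
    have hcont : Tendsto (fun t : ℝ => t • c) (𝓝 0) (𝓝 0) := by
      have := (hline c).continuousAt.tendsto
      simpa using this
    filter_upwards [hcont (ψ.open_source.mem_nhds hp)] with t ht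
    have h5 : ψ (t • c) ∈ ψ.target ∩ L := h3 ▸ mem_image_of_mem _ ⟨ht, hs c hc t⟩
    exact L.sub_mem h5.2 hqL
  -- the derivative of the inverse maps `L` to `C`
  have key2 : ∀ v ∈ (L : Set E), fderiv ℝ ψ.symm (ψ 0) v ∈ C := by
    intro v hv
    have hl : HasDerivAt (fun t : ℝ => ψ 0 + t • v) v 0 := (hline v).const_add (ψ 0)
    have g1 : HasDerivAt (fun t : ℝ => ψ.symm (ψ 0 + t • v)) (fderiv ℝ ψ.symm (ψ 0) v) 0 := by
      have hd : HasFDerivAt ψ.symm (fderiv ℝ ψ.symm (ψ 0)) ((fun t : ℝ => ψ 0 + t • v) 0) := by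
        simpa using d2.hasFDerivAt
      exact hd.comp_hasDerivAt (0 : ℝ) hl
    refine deriv_mem_cone hC hs g1 (by simpa using ψ.left_inv hp) ?_
    have hcont : Tendsto (fun t : ℝ => ψ 0 + t • v) (𝓝 0) (𝓝 (ψ 0)) := by
      have := hl.continuousAt.tendsto
      simpa using this
    filter_upwards [hcont (ψ.open_target.mem_nhds hq)] with t ht
    have h5 : ψ 0 + t • v ∈ ψ.target ∩ L := ⟨ht, L.add_mem hqL (L.smul_mem t hv)⟩
    rw [← h3] at h5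
    obtain ⟨m, ⟨hm1, hm2⟩, hm3⟩ := h5
    rw [← hm3, ψ.left_inv hm1]
    exact hm2
  have key3 : ∀ c : E, fderiv ℝ ψ.symm (ψ 0) (fderiv ℝ ψ 0 c) = c := by
    intro c
    have hcomp : HasFDerivAt (ψ.symm ∘ ψ) ((fderiv ℝ ψ.symm (ψ 0)).comp (fderiv ℝ ψ 0)) 0 :=
      d2.hasFDerivAt.comp (0 : E) d1.hasFDerivAt
    have hid : HasFDerivAt (ψ.symm ∘ ψ) (ContinuousLinearMap.id ℝ E) 0 := by
      refine (hasFDerivAt_id (0 : E)).congr_of_eventuallyEq ?_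
      filter_upwards [ψ.open_source.mem_nhds hp] with x hx
      exact ψ.left_inv hx
    have := hcomp.unique hid
    have h6 := congrArg (fun A : E →L[ℝ] E => A c) this
    simpa using h6
  have h7 : fderiv ℝ ψ 0 (a + b) ∈ (L : Set E) := by
    rw [map_add]
    exact L.add_mem (key1 a ha) (key1 b hb)
  have h8 := key2 _ h7
  rwa [key3] at h8

/-- A closed cone which is a differentiable retract is closed under addition. -/
theorem add_mem_of_retract {E : Type*} [NormedAddCommGroup E] [NormedSpace ℝ E] {C : Set E}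
    (hC : IsClosed C) (hs : ∀ c ∈ C, ∀ t : ℝ, t • c ∈ C) (h0 : (0 : E) ∈ C)
    (r : E → E) (hr : ∀ x, r x ∈ C) (hrC : ∀ c ∈ C, r c = c) (hd : DifferentiableAt ℝ r 0)
    (a b : E) (ha : a ∈ C) (hb : b ∈ C) : a + b ∈ C := by
  have hline : ∀ v : E, HasDerivAt (fun t : ℝ => t • v) v 0 := fun v => by
    simpa using (hasDerivAt_id (0 : ℝ)).smul_const v
  have g : ∀ v : E, HasDerivAt (fun t : ℝ => r (t • v)) (fderiv ℝ r 0 v) 0 := by
    intro v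
    have h : HasFDerivAt r (fderiv ℝ r 0) ((fun t : ℝ => t • v) 0) := by
      simpa using hd.hasFDerivAt
    exact h.comp_hasDerivAt (0 : ℝ) (hline v)
  have key1 : ∀ c ∈ C, fderiv ℝ r 0 c = c := by
    intro c hc
    have h1 : (fun t : ℝ => r (t • c)) = fun t : ℝ => t • c :=
      funext fun t => hrC _ (hs c hc t)
    have h2 := g c
    rw [h1] at h2
    exact h2.unique (hline c)
  have key2 : ∀ v : E, fderiv ℝ r 0 v ∈ C := fun v =>
    deriv_mem_cone hC hs (g v) (by simpa using hrC 0 h0) (Eventually.of_forall fun t => hr _)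
  have h := key2 (a + b)
  rwa [map_add, key1 a ha, key1 b hb] at h

end Pool.Agent.X5.ConeFix
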